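import Pool.Agent.ZPT.Stmts

/-!
Squad ZPT, row UI: the inverse of a power series without zeros in the unit disc converges there,
and its coefficients are p-integral if those of the series are.
-/

set_option autoImplicit false

namespace Pool.Agent.ZPT.H70

open scoped ENNReal NNReal
open Metric

/-- A power series absolutely convergent in the open unit disc, as a `HasFPowerSeriesOnBall`. -/
theorem hasFPS (a : ℕ → ℂ)
    (h : ∀ ρ : ℝ, 0 ≤ ρ → ρ < 1 → Summable fun n : ℕ => ‖a n‖ * ρ ^ n)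
    (f : ℂ → ℂ) (hf : ∀ q : ℂ, ‖q‖ < 1 → f q = ∑' n : ℕ, a n * q ^ n) :
    HasFPowerSeriesOnBall f (FormalMultilinearSeries.ofScalars ℂ a) 0 1 := by
  refine ⟨?_, one_pos, ?_⟩
  · refine ENNReal.le_of_forall_nnreal_lt fun r hr => ?_
    have hr' : (r : ℝ) < 1 := by exact_mod_cast hr
    refine FormalMultilinearSeries.le_radius_of_summable_norm _ ?_
    have := h r r.2 hr'
    refine this.congr fun n => ?_
    rw [FormalMultilinearSeries.ofScalars_norm]
  · intro y hy
    have hy' : ‖y‖ < 1 := by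
      have : ENNReal.ofReal ‖y‖ < 1 := by
        simpa [Metric.mem_eball, edist_zero_right, ofReal_norm] using hy
      exact (ENNReal.ofReal_lt_one).1 this
    have hs : Summable fun n : ℕ => a n * y ^ n := by
      have := h ‖y‖ (norm_nonneg y) hy'
      refine Summable.of_norm (this.congr fun n => ?_)
      rw [norm_mul, norm_pow]
    have e : (fun n => (FormalMultilinearSeries.ofScalars ℂ a) n fun _ => y) =
        fun n => a n * y ^ n := by
      funext n
      rw [FormalMultilinearSeries.ofScalars_apply_eq]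
      simp
    rw [zero_add, hf y hy', e]
    exact hs.hasSum

/-- Uniqueness of the coefficients. -/
theorem coeff_unique (a b : ℕ → ℂ)
    (ha : ∀ ρ : ℝ, 0 ≤ ρ → ρ < 1 → Summable fun n : ℕ => ‖a n‖ * ρ ^ n)
    (hb : ∀ ρ : ℝ, 0 ≤ ρ → ρ < 1 → Summable fun n : ℕ => ‖b n‖ * ρ ^ n)
    (hab : ∀ q : ℂ, ‖q‖ < 1 → ∑' n : ℕ, a n * q ^ n = ∑' n : ℕ, b n * q ^ n) : a = b := by
  have h1 := (hasFPS a ha (fun q => ∑' n : ℕ, a n * q ^ n) fun q _ => rfl).hasFPowerSeriesAt
  have h2 := (hasFPS b hb (fun q => ∑' n : ℕ, a n * q ^ n) fun q hq => hab q hq).hasFPowerSeriesAt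
  have h3 := h1.eq_formalMultilinearSeries h2
  exact (FormalMultilinearSeries.ofScalars_series_eq_iff ℂ a b).1 h3

/-- `p`-integrality of the inverse. -/
theorem pint (D : PowerSeries ℚ) (h0 : PowerSeries.coeff 0 D = 1) (p : ℕ) (hp : p.Prime)
    (hD : ∀ n, padicNorm p (PowerSeries.coeff n D) ≤ 1) (n : ℕ) :
    padicNorm p (PowerSeries.coeff n D⁻¹) ≤ 1 := by
  have : Fact p.Prime := ⟨hp⟩
  induction n using Nat.strong_induction_on with
  | _ n ih =>
    rw [PowerSeries.coeff_inv]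
    have hc : PowerSeries.constantCoeff D = 1 := by
      rw [← PowerSeries.coeff_zero_eq_constantCoeff_apply]
      exact h0
    split_ifs with hn
    · rw [hc]
      simp
    · rw [hc]
      have : padicNorm p (∑ x ∈ Finset.HasAntidiagonal.antidiagonal n,
          if x.2 < n then PowerSeries.coeff x.1 D * PowerSeries.coeff x.2 D⁻¹ else 0) ≤ 1 := by
        refine padicNorm.sum_le' (fun x hx => ?_) zero_le_one
        split_ifs with hx2
        · rw [padicNorm.mul]
          exact mul_le_one₀ (hD _) (padicNorm.nonneg _) (ih _ hx2)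
        · simp
      simpa using this

/-- **Row UI.** -/
theorem ui : UIStmt := by
  intro D h0 hD hne
  refine ⟨?_, fun p hp hpD n => pint D h0 p hp hpD n⟩
  have haD : ∀ ρ : ℝ, 0 ≤ ρ → ρ < 1 →
      Summable fun n : ℕ => ‖((PowerSeries.coeff n D : ℚ) : ℂ)‖ * ρ ^ n := by
    intro ρ h1 h2
    refine (hD ρ h1 h2).congr fun n => ?_
    have : ‖((PowerSeries.coeff n D : ℚ) : ℂ)‖ = |((PowerSeries.coeff n D : ℚ) : ℝ)| := by
      rw [← Real.norm_eq_abs, ← Complex.norm_real]
      simp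
    rw [this]
  have hfps := hasFPS (fun n => ((PowerSeries.coeff n D : ℚ) : ℂ)) haD
    (fun q => ∑' n : ℕ, ((PowerSeries.coeff n D : ℚ) : ℂ) * q ^ n) fun q _ => rfl
  have hdf : DifferentiableOn ℂ (fun q : ℂ => ∑' n : ℕ, ((PowerSeries.coeff n D : ℚ) : ℂ) * q ^ n)
      (ball 0 1) := by
    have := hfps.differentiableOn
    rwa [← Metric.eball_ofReal, ENNReal.ofReal_one]
  have hdg : DifferentiableOn ℂ
      (fun q : ℂ => (∑' n : ℕ, ((PowerSeries.coeff n D : ℚ) : ℂ) * q ^ n)⁻¹) (ball 0 1) := by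
    refine hdf.inv fun q hq => hne q ?_
    simpa using hq
  set g : ℂ → ℂ := fun q : ℂ => (∑' n : ℕ, ((PowerSeries.coeff n D : ℚ) : ℂ) * q ^ n)⁻¹ with hg
  set b : ℕ → ℂ := fun n => ((n.factorial : ℂ))⁻¹ * iteratedDeriv n g 0 with hb
  have hsum : ∀ q : ℂ, ‖q‖ < 1 → HasSum (fun n : ℕ => b n * q ^ n) (g q) := by
    intro q hq
    have h1 := Complex.hasSum_taylorSeries_on_ball (c := 0) (r := 1) hdg (z := q) (by simpa using hq)
    have e : (fun n : ℕ => ((n.factorial : ℂ))⁻¹ • (q - 0) ^ n • iteratedDeriv n g 0) =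
        fun n : ℕ => b n * q ^ n := by
      funext n
      simp only [smul_eq_mul, sub_zero, hb]
      ring
    rw [e] at h1
    exact h1
  have hbs : ∀ ρ : ℝ, 0 ≤ ρ → ρ < 1 → Summable fun n : ℕ => ‖b n‖ * ρ ^ n := by
    intro ρ h1 h2
    have hq : ‖(ρ : ℂ)‖ < 1 := by
      rw [Complex.norm_real, Real.norm_eq_abs, abs_of_nonneg h1]
      exact h2
    refine (hsum ρ hq).summable.norm.congr fun n => ?_
    rw [norm_mul, norm_pow, Complex.norm_real, Real.norm_eq_abs, abs_of_nonneg h1]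
  -- the product of the series is one
  set a : ℕ → ℂ := fun n => ((PowerSeries.coeff n D : ℚ) : ℂ) with ha
  set c : ℕ → ℂ := fun n => ∑ x ∈ Finset.HasAntidiagonal.antidiagonal n, a x.1 * b x.2 with hc
  have hnorm : ∀ (s : ℕ → ℂ), (∀ ρ : ℝ, 0 ≤ ρ → ρ < 1 → Summable fun n : ℕ => ‖s n‖ * ρ ^ n) →
      ∀ q : ℂ, ‖q‖ < 1 → Summable fun n : ℕ => ‖s n * q ^ n‖ := by
    intro s hs q hq
    refine (hs ‖q‖ (norm_nonneg q) hq).congr fun n => ?_
    rw [norm_mul, norm_pow]
  have hterm : ∀ (q : ℂ) (n : ℕ), ∑ x ∈ Finset.HasAntidiagonal.antidiagonal n,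
      (a x.1 * q ^ x.1) * (b x.2 * q ^ x.2) = c n * q ^ n := by
    intro q n
    rw [hc, Finset.sum_mul]
    refine Finset.sum_congr rfl fun x hx => ?_
    rw [← Finset.HasAntidiagonal.mem_antidiagonal.1 hx, pow_add]
    ring
  have hcs : ∀ ρ : ℝ, 0 ≤ ρ → ρ < 1 → Summable fun n : ℕ => ‖c n‖ * ρ ^ n := by
    intro ρ h1 h2
    have hq : ‖(ρ : ℂ)‖ < 1 := by
      rw [Complex.norm_real, Real.norm_eq_abs, abs_of_nonneg h1]
      exact h2
    have h3 := summable_norm_sum_mul_antidiagonal_of_summable_norm (hnorm a haD _ hq)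
      (hnorm b hbs _ hq)
    refine h3.congr fun n => ?_
    rw [hterm, norm_mul, norm_pow, Complex.norm_real, Real.norm_eq_abs, abs_of_nonneg h1]
  have hone : c = fun n => if n = 0 then 1 else 0 := by
    refine coeff_unique c _ hcs ?_ ?_
    · intro ρ h1 h2
      refine summable_of_ne_finset_zero (s := {0}) fun n hn => ?_
      have : n ≠ 0 := by simpa using hn
      simp [this]
    · intro q hq
      have h3 := tsum_mul_tsum_eq_tsum_sum_antidiagonal_of_summable_norm (hnorm a haD _ hq)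
        (hnorm b hbs _ hq)
      have h4 : ∑' n : ℕ, c n * q ^ n = 1 := by
        rw [← tsum_congr (hterm q), ← h3, (hsum q hq).tsum_eq, hg]
        exact mul_inv_cancel₀ (hne q hq)
      rw [h4, tsum_eq_single 0]
      · simp
      · intro n hn
        simp [hn]
  -- hence the coefficients of `b` are those of the inverse
  have hmk : PowerSeries.mk b = (D.map (algebraMap ℚ ℂ))⁻¹ := by
    have hc0 : PowerSeries.constantCoeff (D.map (algebraMap ℚ ℂ)) ≠ 0 := by
      rw [← PowerSeries.coeff_zero_eq_constantCoeff_apply, PowerSeries.coeff_map, h0]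
      simp
    rw [PowerSeries.eq_inv_iff_mul_eq_one hc0]
    ext n
    rw [mul_comm, PowerSeries.coeff_mul]
    have := congrFun hone n
    rw [hc] at this
    simp only [PowerSeries.coeff_map, PowerSeries.coeff_mk, PowerSeries.coeff_one]
    exact this
  have hcoeff : ∀ n, b n = ((PowerSeries.coeff n D⁻¹ : ℚ) : ℂ) := by
    intro n
    have h1 : D.map (algebraMap ℚ ℂ) * (D⁻¹).map (algebraMap ℚ ℂ) = 1 := by
      rw [← map_mul, PowerSeries.mul_inv_cancel, map_one]
      rw [← PowerSeries.coeff_zero_eq_constantCoeff_apply, h0]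
      exact one_ne_zero
    have hc0 : PowerSeries.constantCoeff (D.map (algebraMap ℚ ℂ)) ≠ 0 := by
      rw [← PowerSeries.coeff_zero_eq_constantCoeff_apply, PowerSeries.coeff_map, h0]
      simp
    have h2 : (D⁻¹).map (algebraMap ℚ ℂ) = (D.map (algebraMap ℚ ℂ))⁻¹ := by
      rw [PowerSeries.eq_inv_iff_mul_eq_one hc0, mul_comm]
      exact h1
    have h3 := congrArg (PowerSeries.coeff n) (hmk.trans h2.symm)
    rw [PowerSeries.coeff_mk, PowerSeries.coeff_map] at h3
    rw [h3]
    rfl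
  intro ρ h1 h2
  refine (hbs ρ h1 h2).congr fun n => ?_
  have : ‖b n‖ = |((PowerSeries.coeff n D⁻¹ : ℚ) : ℝ)| := by
    rw [hcoeff, ← Real.norm_eq_abs, ← Complex.norm_real]
    simp
  rw [this]

end Pool.Agent.ZPT.H70
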